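import Pool.Agent.Lead.Rains

namespace Pool.Agent.Results.MP_4046ef_mp.Counterexample

open Pool.Agent.Lead.Rains

theorem result : ∃ (n : ℕ) (k : Fin n → ℕ) (r : Fin n → ℝ),
    (∀ j, 1 ≤ k j) ∧ (∀ j, 0 < r j ∧ r j < 2) ∧ Anomaly k r ∧ NonChiral k ∧
    (∃ e > 0, ∀ x : ℝ, 0 < |x| → |x| < e → 0 < L k r x) ∧ ∃ x, L k r x < 0 :=
  ⟨3, k0, r0, k0_pos, r0_mem, anom, nonchiral, ⟨1 / 3, by norm_num, L_pos⟩, _, L_half⟩

end Pool.Agent.Results.MP_4046ef_mp.Counterexample
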